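import Mathlib
import Pool.Agent.H55.QC

namespace Pool.Agent.Results.MP_aa6101_gt.NotLusin

open Pool.Agent.H55.QC

/-- An uncountable Hausdorff space, not a Lusin space, whose space of quasicontinuous real
functions with the pointwise topology is Frechet-Urysohn. -/
theorem result : ∃ (Y : Type) (_ : TopologicalSpace Y), T2Space Y ∧ Uncountable Y ∧
    FrechetUrysohnSpace {f : Y → ℝ // IsQC f} ∧ ¬ IsLusin Y := by
  refine ⟨X, inferInstance, inferInstance, ?_, fu, fun h => N_unc (h.2.1 N N_nwd)⟩
  exact not_countable_iff.1 fun h => N_unc (Set.to_countable N)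

end Pool.Agent.Results.MP_aa6101_gt.NotLusin
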